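import Pool.Agent.Helper84K9.SG.RealSet
import Pool.Agent.Helper84K9.SG.Beh
import Pool.Agent.Helper84K9.SG.Win
import Pool.Agent.Helper84K9.SG.Col
import Pool.Agent.Helper84K9.SG.Int2
import Pool.Agent.Helper84K9.SG.Noh
import Pool.Agent.Helper84K9.SG.Seq
import Pool.Agent.Helper84K9.SG.Gp6
import Pool.Agent.Helper84K9.SG.Par

/-!
# Sets of positive integers without six term geometric progressions and with very small gaps

There is a set `A` of positive integers without geometric progressions of six terms (with any real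
ratio) such that every interval `[x, x + C log x exp (C √(log log x))]`, `x ≥ 2`, contains an element
of `A`: the gaps are `(log x) ^ (1 + o(1))`.

Idea of the proof. For random positive integer weights `w p` of the primes let
`F n = ∑ p, w p * (exponent of p in n) ^ 2`. Along a geometric progression the exponents of every
prime form an arithmetic progression, so `F` is a quadratic polynomial with positive leading
coefficient. The elements `n < 2 ^ l` of `A` satisfy `F n ∈ S`, where `S` is the preimage, under a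
random affine map modulo a prime of size a power of `l`, of a Behrend set (the points of a sphere in a
box, read as digits): it contains no five terms of a quadratic progression, and its density is
`exp (- c √(log l))`. The scales `l = 8 ^ (i + 2)` overlap, and the elements of one level satisfy the
conditions of two neighbouring scales; so of six terms of a geometric progression the last five lie
in one scale. Most of the elements `n` of a short interval have a private large prime factor `p`, and
the weights `w p` make the events `F n ∈ S` nearly independent; the weights of the scales are chosen one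
after the other.
-/

set_option autoImplicit false

namespace Pool.Agent.Results.MP_b928c0_nt.SmallGaps

/-- The set `A` contains a geometric progression with `k` terms: nonzero elements
`b 0, ..., b (k - 1)` of `A` and a real `r ≠ 0, 1, -1` with `b (j + 1) = r * b j`. -/
def ContainsGP (A : Set ℕ) (k : ℕ) : Prop :=
  ∃ (b : Fin k → ℕ) (r : ℝ), (∀ j, b j ∈ A) ∧ (∀ j, b j ≠ 0) ∧ r ≠ 0 ∧ r ≠ 1 ∧ r ≠ -1 ∧
    ∀ i j : Fin k, j.val = i.val + 1 → (b j : ℝ) = r * (b i : ℝ)

theorem result :
    ∃ A : Set ℕ, (∀ a ∈ A, 0 < a) ∧ ¬ ContainsGP A 6 ∧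
      ∃ C : ℝ, ∀ x : ℝ, 2 ≤ x → ∃ a ∈ A, x ≤ (a : ℝ) ∧
        (a : ℝ) ≤ x + C * Real.log x * Real.exp (C * Real.sqrt (Real.log (Real.log x))) := by
  obtain ⟨A, hpos, hgp, hgap⟩ := Pool.Agent.Helper84K9.SG.exists_set_real
    (Pool.Agent.Helper84K9.SG.col Pool.Agent.Helper84K9.SG.beh Pool.Agent.Helper84K9.SG.win)
    (Pool.Agent.Helper84K9.SG.noh Pool.Agent.Helper84K9.SG.int2) Pool.Agent.Helper84K9.SG.seq
    Pool.Agent.Helper84K9.SG.gp6 Pool.Agent.Helper84K9.SG.par Pool.Agent.Helper84K9.SG.real
  refine ⟨A, hpos, ?_, hgap⟩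
  obtain ⟨k, hk⟩ : ∃ k, k = 6 := ⟨_, rfl⟩
  rw [← hk] at hgp ⊢
  have hkpos : 0 < k := by omega
  rintro ⟨b, r, hb, hb0, hr0, hr1, -, hr⟩
  -- the extension of `b` to all the natural numbers, and the reversed sequence
  let c : ℕ → ℕ := fun j => if h : j < k then b ⟨j, h⟩ else 1
  let c' : ℕ → ℕ := fun j => if h : j < k then b ⟨k - 1 - j, by omega⟩ else 1
  have hc : ∀ j (h : j < k), c j = b ⟨j, h⟩ := fun j h => by simp only [c]; rw [dif_pos h]
  have hc' : ∀ j (h : j < k), c' j = b ⟨k - 1 - j, by omega⟩ := fun j h => by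
    simp only [c']; rw [dif_pos h]
  have hstep : ∀ i (h : i + 1 < k), (b ⟨i + 1, h⟩ : ℝ) = r * (b ⟨i, by omega⟩ : ℝ) :=
    fun i h => hr ⟨i, by omega⟩ ⟨i + 1, h⟩ rfl
  have hpos' : ∀ j : Fin k, (0 : ℝ) < b j := fun j => by
    exact_mod_cast Nat.pos_of_ne_zero (hb0 j)
  have hrpos : 0 < r := by
    have h1 := hstep 0 (by omega)
    have h2 := hpos' ⟨0 + 1, by omega⟩
    have h3 := hpos' ⟨0, by omega⟩
    rw [h1] at h2
    exact (pos_iff_pos_of_mul_pos h2).2 h3
  have hsq : ∀ i (h : i + 2 < k), b ⟨i, by omega⟩ * b ⟨i + 2, h⟩ = b ⟨i + 1, by omega⟩ ^ 2 := by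
    intro i h
    have h1 := hstep i (by omega)
    have h2 := hstep (i + 1) h
    have h3 : ((b ⟨i, by omega⟩ * b ⟨i + 2, h⟩ : ℕ) : ℝ) = ((b ⟨i + 1, by omega⟩ ^ 2 : ℕ) : ℝ) := by
      push_cast
      have h4 : (b ⟨i + 2, h⟩ : ℝ) = r * (b ⟨i + 1, by omega⟩ : ℝ) := h2
      rw [h4, h1]
      ring
    exact_mod_cast h3
  rcases lt_or_gt_of_ne hr1 with hlt | hgt
  · -- a decreasing progression
    apply hgp c'
    · intro j hj
      rw [hc' j hj]
      exact hb _
    · intro j hj
      rw [hc' j (by omega), hc' (j + 1) (by omega), hc' (j + 2) hj]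
      have h1 := hsq (k - 1 - (j + 2)) (by omega)
      have e1 : k - 1 - (j + 2) + 2 = k - 1 - j := by omega
      have e2 : k - 1 - (j + 2) + 1 = k - 1 - (j + 1) := by omega
      simp only [e1, e2] at h1
      rw [← h1]
      ring
    · rw [hc' 0 (by omega), hc' 1 (by omega)]
      have h1 := hstep (k - 1 - 1) (by omega)
      have e1 : k - 1 - 1 + 1 = k - 1 - 0 := by omega
      simp only [e1] at h1
      have h2 := hpos' ⟨k - 1 - 1, by omega⟩
      have h3 : (b ⟨k - 1 - 0, by omega⟩ : ℝ) < b ⟨k - 1 - 1, by omega⟩ := by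
        rw [h1]
        nlinarith
      exact_mod_cast h3
  · -- an increasing progression
    apply hgp c
    · intro j hj
      rw [hc j hj]
      exact hb _
    · intro j hj
      rw [hc j (by omega), hc (j + 1) (by omega), hc (j + 2) hj]
      exact hsq j hj
    · rw [hc 0 (by omega), hc 1 (by omega)]
      have h1 := hstep 0 (by omega)
      have h2 := hpos' ⟨0, by omega⟩
      have h3 : (b ⟨0, by omega⟩ : ℝ) < b ⟨0 + 1, by omega⟩ := by
        rw [h1]
        nlinarith
      exact_mod_cast h3

end Pool.Agent.Results.MP_b928c0_nt.SmallGaps
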