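import Pool.Agent.Helper84K9.TT.Asm
import Pool.Agent.Helper84K9.TT.Cor
import Pool.Agent.Helper84K9.TT.Irr
import Pool.Agent.Helper84K9.TT.Pt
import Pool.Agent.Helper84K9.TT.Wn
import Pool.Agent.Helper84K9.TT.Nh
import Pool.Agent.Helper84K9.TT.Uf
import Pool.Agent.Helper84K9.TT.Par
import Pool.Agent.Helper84K9.TT.Fin

/-!
# Sets of positive integers without three term geometric progressions and with polylogarithmic gaps

There is a set `A` of positive integers without geometric progressions of three terms (with any real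
ratio) such that every interval `[x, x + C (log x) ^ 5]`, `x ≥ 2`, contains an element of `A`.

Idea of the proof. For random real `θ p` let `f n = ∑ p, (√2 / 2 * v_p(n) ^ 2 + θ p * v_p(n))`, where `v_p(n)` is
the exponent of `p` in `n`. Along a geometric progression `b 0, b 1, b 2` the exponents form arithmetic
progressions with differences `d p`, so `f (b 0) - 2 f (b 1) + f (b 2) = √2 D` with
`D = ∑ p, d p ^ 2 ≤ (log_2 (b 1)) ^ 2`. The set `A` consists of the `n`, with `m` binary digits, for which `f n` is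
closer than `1 / (400 m ^ 4)` to an integer, and `f n - √2 D` is not closer than `3 / (400 D ^ 2)` to an integer for any
`D ≥ 1`. So it contains no progression. As `√2 D` has the distance `≥ 1 / (4 D)` from the integers, only the
`D ≥ 97 m ^ 4` matter in the second condition, and it costs less than half of the first. Most elements `n` of
a short interval have a private large prime factor `p`, and `θ p` makes the events `n ∈ A` independent. (This is
done for the integers up to `2 ^ l`, with `θ p` in `(1 / R) ℤ`; then `l → ∞` along an ultrafilter.)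
-/

set_option autoImplicit false

namespace Pool.Agent.Results.MP_b928c0_nt.ThreeTerms

/-- The set `A` contains a geometric progression with `k` terms: nonzero elements
`b 0, ..., b (k - 1)` of `A` and a real `r ≠ 0, 1, -1` with `b (j + 1) = r * b j`. -/
def ContainsGP (A : Set ℕ) (k : ℕ) : Prop :=
  ∃ (b : Fin k → ℕ) (r : ℝ), (∀ j, b j ∈ A) ∧ (∀ j, b j ≠ 0) ∧ r ≠ 0 ∧ r ≠ 1 ∧ r ≠ -1 ∧
    ∀ i j : Fin k, j.val = i.val + 1 → (b j : ℝ) = r * (b i : ℝ)

theorem result :
    ∃ A : Set ℕ, (∀ a ∈ A, 0 < a) ∧ ¬ ContainsGP A 3 ∧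
      ∃ C : ℝ, ∀ x : ℝ, 2 ≤ x → ∃ a ∈ A, x ≤ (a : ℝ) ∧ (a : ℝ) ≤ x + C * (Real.log x) ^ 5 := by
  obtain ⟨A, hpos, hgp0, hgap⟩ := Pool.Agent.Helper84K9.TT.three_poly
    Pool.Agent.Helper84K9.TT.cor
    (Pool.Agent.Helper84K9.TT.nh (Pool.Agent.Helper84K9.TT.wn Pool.Agent.Helper84K9.TT.irr
      Pool.Agent.Helper84K9.TT.pt))
    Pool.Agent.Helper84K9.TT.uf Pool.Agent.Helper84K9.TT.par Pool.Agent.Helper84K9.TT.fin
  have hgp : ∀ b : ℕ → ℕ, (∀ j < 3, b j ∈ A) →
      (∀ j, j + 2 < 3 → b j * b (j + 2) = b (j + 1) ^ 2) → ¬ b 0 < b 1 :=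
    fun b hb h => hgp0 b hb (h 0 (by omega))
  refine ⟨A, hpos, ?_, hgap⟩
  obtain ⟨k, hk⟩ : ∃ k, k = 3 := ⟨_, rfl⟩
  rw [← hk] at hgp ⊢
  have hkpos : 0 < k := by omega
  rintro ⟨b, r, hb, hb0, hr0, hr1, -, hr⟩
  -- the extension of `b` to all the natural numbers, and the reversed sequence
  let e1 : ℕ → ℕ := fun j => if h : j < k then b ⟨j, h⟩ else 1
  let e1' : ℕ → ℕ := fun j => if h : j < k then b ⟨k - 1 - j, by omega⟩ else 1
  have he1 : ∀ j (h : j < k), e1 j = b ⟨j, h⟩ := fun j h => by simp only [e1]; rw [dif_pos h]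
  have he1' : ∀ j (h : j < k), e1' j = b ⟨k - 1 - j, by omega⟩ := fun j h => by
    simp only [e1']; rw [dif_pos h]
  have hstep : ∀ i (h : i + 1 < k), (b ⟨i + 1, h⟩ : ℝ) = r * (b ⟨i, by omega⟩ : ℝ) :=
    fun i h => hr ⟨i, by omega⟩ ⟨i + 1, h⟩ rfl
  have hpos' : ∀ j : Fin k, (0 : ℝ) < b j := fun j => by
    exact_mod_cast Nat.pos_of_ne_zero (hb0 j)
  have hrpos : 0 < r := by
    have h1 := hstep 0 (by omega)
    have h2 := hpos' ⟨0 + 1, by omega⟩
    have h3 := hpos' ⟨0, by omega⟩
    rw [h1] at h2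
    exact (pos_iff_pos_of_mul_pos h2).2 h3
  have hsq : ∀ i (h : i + 2 < k), b ⟨i, by omega⟩ * b ⟨i + 2, h⟩ = b ⟨i + 1, by omega⟩ ^ 2 := by
    intro i h
    have h1 := hstep i (by omega)
    have h2 := hstep (i + 1) h
    have h3 : ((b ⟨i, by omega⟩ * b ⟨i + 2, h⟩ : ℕ) : ℝ) = ((b ⟨i + 1, by omega⟩ ^ 2 : ℕ) : ℝ) := by
      push_cast
      have h4 : (b ⟨i + 2, h⟩ : ℝ) = r * (b ⟨i + 1, by omega⟩ : ℝ) := h2
      rw [h4, h1]
      ring
    exact_mod_cast h3
  rcases lt_or_gt_of_ne hr1 with hlt | hgt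
  · -- a decreasing progression
    apply hgp e1'
    · intro j hj
      rw [he1' j hj]
      exact hb _
    · intro j hj
      rw [he1' j (by omega), he1' (j + 1) (by omega), he1' (j + 2) hj]
      have h1 := hsq (k - 1 - (j + 2)) (by omega)
      have e1 : k - 1 - (j + 2) + 2 = k - 1 - j := by omega
      have e2 : k - 1 - (j + 2) + 1 = k - 1 - (j + 1) := by omega
      simp only [e1, e2] at h1
      rw [← h1]
      ring
    · rw [he1' 0 (by omega), he1' 1 (by omega)]
      have h1 := hstep (k - 1 - 1) (by omega)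
      have e1 : k - 1 - 1 + 1 = k - 1 - 0 := by omega
      simp only [e1] at h1
      have h2 := hpos' ⟨k - 1 - 1, by omega⟩
      have h3 : (b ⟨k - 1 - 0, by omega⟩ : ℝ) < b ⟨k - 1 - 1, by omega⟩ := by
        rw [h1]
        nlinarith
      exact_mod_cast h3
  · -- an increasing progression
    apply hgp e1
    · intro j hj
      rw [he1 j hj]
      exact hb _
    · intro j hj
      rw [he1 j (by omega), he1 (j + 1) (by omega), he1 (j + 2) hj]
      exact hsq j hj
    · rw [he1 0 (by omega), he1 1 (by omega)]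
      have h1 := hstep 0 (by omega)
      have h2 := hpos' ⟨0, by omega⟩
      have h3 : (b ⟨0, by omega⟩ : ℝ) < b ⟨0 + 1, by omega⟩ := by
        rw [h1]
        nlinarith
      exact_mod_cast h3

end Pool.Agent.Results.MP_b928c0_nt.ThreeTerms
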